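import Pool.Agent.Run7.h635.GEN.Inf
import Pool.Agent.Run7.h635.GEN.Slopes

/-!
# Semisimple Frobenius on top cohomology attached to rational eigenforms

Let `f` be a normalized eigenform of weight `k ≥ 3` on `Γ_0(M)` with rational integral coefficients
`a_n`. We consider `p`-linear endomorphisms `F` of vector spaces over the residue fields of
characteristic `p` which have a basis of vectors `e_i` with `F(e_i) = a_p^(m_i) e_i`. For a rigid
Calabi-Yau threefold `X` over `ℚ` (weight 4) and its powers this is the Frobenius on the top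
cohomology of the structure sheaf of the reduction.
-/

set_option autoImplicit false

open MatrixGroups UpperHalfPlane CongruenceSubgroup

namespace Pool.Agent.Results.MP_44c6a0_ag.RationalEigenforms

/-- The Hecke operator `T_p` (`U_p` if `p ∣ M`) of weight `k` and level `Γ_0(M)` on functions on
the upper half-plane: `z ↦ p^(k-1) f(pz) + p^(-1) ∑_{b mod p} f((z+b)/p)`, where the first term is
left out if `p ∣ M`. -/
noncomputable def heckeT (M k p : ℕ) (f : ℍ → ℂ) (z : ℍ) : ℂ :=
  (if p ∣ M then 0 else (p : ℂ) ^ (k - 1) * f (ofComplex ((p : ℂ) * z))) +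
    (∑ b ∈ Finset.range p, f (ofComplex (((z : ℂ) + b) / p))) / p

/-- `f`, a cusp form of weight `k` on `Γ_0(M)`, is a normalized Hecke eigenform with the rational
integral coefficients `a n`: `f = ∑ a_n e(nz)`, `a_1 = 1`, and `f` is an eigenfunction of `T_p` for
all primes `p`. -/
structure IsIntegralEigenform {M k : ℕ} (f : CuspForm (Gamma0 M) k) (a : ℕ → ℤ) : Prop where
  coeff : ∀ n, (qExpansion 1 f).coeff n = a n
  one : a 1 = 1
  hecke : ∀ p : ℕ, p.Prime → ∃ c : ℂ, ∀ z : ℍ, heckeT M k p f z = c * f z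

/-- `F` is a `p`-linear endomorphism of the vector space `V` over the field `κ`. -/
structure IsPLinear (κ : Type) [Field κ] (p : ℕ) {V : Type} [AddCommGroup V] [Module κ V]
    (F : V → V) : Prop where
  add : ∀ v w, F (v + w) = F v + F w
  smul : ∀ (c : κ) (v : V), F (c • v) = c ^ p • F v

/-- `F` is semisimple: `V` is spanned by `F(V)`. -/
def IsSemisimpleF (κ : Type) [Field κ] {V : Type} [AddCommGroup V] [Module κ V]
    (F : V → V) : Prop := Submodule.span κ (Set.range F) = ⊤

/-- Over the field `κ` of characteristic `p`, every `p`-linear endomorphism `F` of a nonzero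
finite-dimensional vector space with a basis of vectors `e_i` such that `F(e_i) = t^(m_i) e_i` is
semisimple. -/
def AllSemisimple (κ : Type) [Field κ] (p : ℕ) (t : ℤ) : Prop :=
  ∀ (V : Type) [AddCommGroup V] [Module κ V] (n : ℕ) (e : Module.Basis (Fin (n + 1)) κ V)
    (m : Fin (n + 1) → ℕ) (F : V → V), IsPLinear κ p F →
    (∀ i, F (e i) = (t : κ) ^ m i • e i) → IsSemisimpleF κ F

/-- The closed point `s` of `Spec A` is good for the system `a`: its characteristic `p` does not
divide `M`, and `AllSemisimple` holds, with `t = a_p`, over all extension fields `κ` of the residue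
field `A / s`. -/
def Good {A : Type} [CommRing A] (M : ℕ) (a : ℕ → ℤ) (s : PrimeSpectrum A) : Prop :=
  s.asIdeal.IsMaximal ∧ ∃ p : ℕ, p.Prime ∧ ¬ p ∣ M ∧ (p : A) ∈ s.asIdeal ∧
    ∀ (κ : Type) [Field κ] (φ : A →+* κ), RingHom.ker φ = s.asIdeal → AllSemisimple κ p (a p)

lemma allSemisimple_of {κ : Type} [Field κ] {p : ℕ} {t : ℤ} (ht : (t : κ) ≠ 0) :
    AllSemisimple κ p t := by
  intro V _ _ n e m F _ he
  unfold IsSemisimpleF
  rw [eq_top_iff, ← e.span_eq, Submodule.span_le]
  rintro _ ⟨i, rfl⟩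
  have h1 : e i = ((t : κ) ^ m i)⁻¹ • F (e i) := by
    rw [he, smul_smul, inv_mul_cancel₀ (pow_ne_zero _ ht), one_smul]
  rw [h1]
  exact Submodule.smul_mem _ _ (Submodule.subset_span ⟨e i, rfl⟩)

lemma ne_zero_of {κ : Type} [Field κ] {p : ℕ} (hp : p.Prime) (hκ : (p : κ) = 0) {t : ℤ}
    (ht : ¬ (p : ℤ) ∣ t) : (t : κ) ≠ 0 := by
  intro h0
  have : Fact p.Prime := ⟨hp⟩
  have : CharP κ p := (CharP.charP_iff_prime_eq_zero hp).2 hκ
  exact ht ((CharP.intCast_eq_zero_iff κ p t).1 h0)

/-- Let `f` be a normalized eigenform of weight `k ≥ 3` on `Γ_0(M)` with rational integral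
coefficients `a_n`.

(1) The primes `p ∤ M` for which `AllSemisimple` holds, with `t = a_p`, over all fields `κ` of
characteristic `p`, have positive lower density among all primes.

(2) For every domain `A` of characteristic `0` which is finitely generated over `ℤ`, the closed
points of `Spec A` which are good for `a` are dense in `Spec A`. -/
theorem result (M k : ℕ) [NeZero M] (hk : 3 ≤ k) (f : CuspForm (Gamma0 M) k) (a : ℕ → ℤ)
    (hf : IsIntegralEigenform f a) :
    0 < Filter.liminf (fun x : ℕ =>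
      (Nat.card {p : ℕ // p ≤ x ∧ p.Prime ∧ ¬ p ∣ M ∧
        ∀ (κ : Type) [Field κ] [CharP κ p], AllSemisimple κ p (a p)} : ℝ) /
        Nat.card {p : ℕ // p ≤ x ∧ p.Prime}) Filter.atTop ∧
    ∀ (A : Type) [CommRing A] [IsDomain A] [CharZero A] [Algebra.FiniteType ℤ A],
      Dense {s : PrimeSpectrum A | Good M a s} := by
  have h1 : (qExpansion 1 f).coeff 1 = 1 := by rw [hf.coeff, hf.one, Int.cast_one]
  have h2 := (H635.GEN.rat M k hk f h1 hf.hecke a hf.coeff)
  refine ⟨?_, fun A _ _ _ _ => ?_⟩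
  · exact H594.CY.liminf_pos (fun p => ¬ p ∣ M ∧
      ∀ (κ : Type) [Field κ] [CharP κ p], AllSemisimple κ p (a p))
      (H635.GEN.PosLog.mono (fun p hp h => ⟨h.1, fun κ _ _ =>
        allSemisimple_of (ne_zero_of hp (CharP.cast_eq_zero κ p) h.2)⟩) h2)
  · refine (H635.GEN.dense_closed (H635.GEN.PosLog.infinite h2) (fun p hp => hp.1) A).mono ?_
    rintro s ⟨hs, p, ⟨hp, hpM, hpa⟩, hps⟩
    refine ⟨hs, p, hp, hpM, hps, fun κ _ φ hφ => allSemisimple_of (ne_zero_of hp ?_ hpa)⟩
    have h3 : (p : A) ∈ RingHom.ker φ := by rw [hφ]; exact hps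
    rw [RingHom.mem_ker, map_natCast] at h3
    exact h3

end Pool.Agent.Results.MP_44c6a0_ag.RationalEigenforms
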