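import Pool.Agent.Run7.h709.SV.HW

/-!
# Frobenius on the top cohomology of a sevenfold with `p_g = 2`

For an integer `d ≠ 0` let `X_d` be the double covering
`d v² = ∏_{i=1}^6 y_i (y_i - z) (y_i - s)` of `ℙ⁷` branched along eighteen hyperplanes, in the affine
chart `z = 1`. It is birational to a quotient of the sixfold fibre product of the Legendre family.
A smooth projective model has `p_g = 2`, with the regular differential forms `s^i ω`, `i = 0, 1`,
`ω = ds dy_1 ⋯ dy_6 / v` (the cusp forms of weight `8` for `Γ(2)`, all of them old from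
`η(τ)⁸ η(2τ)⁸`, which has no complex multiplication). The matrix of the Cartier operator modulo `p`
with respect to these forms, dual to Frobenius on `H⁷(X_d, 𝒪)`, consists of the coefficients of
`s^(p (j + 1) - (i + 1)) y_1^(p - 1) ⋯ y_6^(p - 1)` in
`(d ∏ y_i (y_i - 1) (y_i - s))^((p - 1) / 2)`.

Theorem: it is a scalar matrix, and it is invertible for a set of primes of positive lower density.
-/

set_option autoImplicit false

namespace Pool.Agent.Results.MP_44c6a0_ag.SevenfoldTopCohomology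

/-- The set of all `(s, z, (y_1, …, y_6), v)` over `𝔽_p` with
`d v² = ∏_i y_i (y_i - z) (y_i - s)`. -/
def Solutions (p : ℕ) (d : ℤ) : Set (ZMod p × ZMod p × (Fin 6 → ZMod p) × ZMod p) :=
  {P | (d : ZMod p) * P.2.2.2 ^ 2 =
    ∏ i : Fin 6, P.2.2.1 i * (P.2.2.1 i - P.2.1) * (P.2.2.1 i - P.1)}

/-- `d ∏_i y_i (y_i - 1) (y_i - s)`, a polynomial in `y_1, …, y_6` over `𝔽_p[s]`. -/
noncomputable def Branch (p : ℕ) (d : ℤ) : MvPolynomial (Fin 6) (Polynomial (ZMod p)) :=
  (d : MvPolynomial (Fin 6) (Polynomial (ZMod p))) *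
    ∏ i : Fin 6, MvPolynomial.X i * (MvPolynomial.X i - 1) *
      (MvPolynomial.X i - MvPolynomial.C Polynomial.X)

/-- The Hasse-Witt matrix: its entry of index `(i, j)` is the coefficient of
`s^(p (j + 1) - (i + 1)) y_1^(p - 1) ⋯ y_6^(p - 1)` in `Branch^((p - 1) / 2)`, `i, j = 0, 1`. -/
noncomputable def HasseWitt (p : ℕ) (d : ℤ) : Matrix (Fin 2) (Fin 2) (ZMod p) := fun i j =>
  (MvPolynomial.coeff (Finsupp.equivFunOnFinite.symm fun _ => p - 1)
    (Branch p d ^ ((p - 1) / 2))).coeff (p * (j + 1) - (i + 1))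

/-- **Theorem.** Let `d ≠ 0` be an integer. For every prime `p` not dividing `2d` the Hasse-Witt
matrix of `d v² = ∏_{i=1}^6 y_i (y_i - z) (y_i - s)` is a scalar matrix `a`, and `2a` is the number
of solutions `(s, z, y_1, …, y_6, v)` over `𝔽_p` of the equation modulo `p`. The primes `p` for
which the Hasse-Witt matrix is invertible have positive lower density in the set of all primes. -/
theorem result (d : ℤ) (hd : d ≠ 0) :
    (∀ p : ℕ, p.Prime → ¬ (p : ℤ) ∣ 2 * d → ∃ a : ZMod p,
      HasseWitt p d = a • (1 : Matrix (Fin 2) (Fin 2) (ZMod p)) ∧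
        (Nat.card (Solutions p d) : ZMod p) = 2 * a) ∧
    0 < Filter.liminf (fun x : ℕ =>
      (Nat.card {p : ℕ // p ≤ x ∧ p.Prime ∧ IsUnit (HasseWitt p d)} : ℝ) /
        Nat.card {p : ℕ // p ≤ x ∧ p.Prime}) Filter.atTop :=
  Run7.h709.SV.final d hd

end Pool.Agent.Results.MP_44c6a0_ag.SevenfoldTopCohomology
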